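import Mathlib
import Pool.Agent.Y522.FA.Stm

/-!
The pointwise inequality of the calibration.
-/

set_option autoImplicit false

open Finset
open scoped Real ComplexConjugate

noncomputable section

namespace Pool.Agent.Y79.FA

open Pool.Agent.Y522.FA

/-- the character `exp (2 π i m / N)` -/
def ec (N : ℕ) (m : ℤ) : ℂ := Complex.exp (2 * π * Complex.I * m / N)

lemma ec_add (N : ℕ) (m n : ℤ) : ec N (m + n) = ec N m * ec N n := by
  rw [ec, ec, ec, ← Complex.exp_add]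
  congr 1
  push_cast
  ring

lemma ec_mul (N : ℕ) (m : ℤ) (j : ℕ) : ec N (m * j) = ec N m ^ j := by
  rw [ec, ec, ← Complex.exp_nat_mul]
  congr 1
  push_cast
  ring

lemma ec_conj (N : ℕ) (m : ℤ) : conj (ec N m) = ec N (-m) := by
  rw [ec, ec, ← Complex.exp_conj]
  congr 1
  simp only [map_div₀, map_mul, Complex.conj_I, Complex.conj_ofReal, map_natCast, map_intCast,
    map_ofNat]
  push_cast
  ring

lemma ec_zero (N : ℕ) : ec N 0 = 1 := by
  rw [ec]
  simp

lemma ec_N (N : ℕ) (hN : N ≠ 0) (m : ℤ) : ec N m ^ N = 1 := by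
  rw [← ec_mul, ec, Complex.exp_eq_one_iff]
  refine ⟨m, ?_⟩
  have : (N : ℂ) ≠ 0 := Nat.cast_ne_zero.2 hN
  push_cast
  field_simp

lemma ec_ne_one (N : ℕ) (hN : N ≠ 0) (m : ℤ) (hm : ¬ (N : ℤ) ∣ m) : ec N m ≠ 1 := by
  intro h
  rw [ec, Complex.exp_eq_one_iff] at h
  obtain ⟨n, hn⟩ := h
  apply hm
  refine ⟨n, ?_⟩
  have hN' : (N : ℂ) ≠ 0 := Nat.cast_ne_zero.2 hN
  have h2 : (2 * π * Complex.I : ℂ) ≠ 0 := Complex.two_pi_I_ne_zero
  have h3 : (m : ℂ) = N * n := by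
    have h4 : (2 * π * Complex.I : ℂ) * m = (2 * π * Complex.I) * (N * n) := by
      field_simp at hn
      linear_combination (2 * π * Complex.I : ℂ) * hn
    exact mul_left_cancel₀ h2 h4
  exact_mod_cast h3

lemma geom (N : ℕ) (hN : N ≠ 0) (m : ℤ) (hm : ¬ (N : ℤ) ∣ m) :
    ∑ j ∈ range N, ec N (m * j) = 0 := by
  have h : ∀ j ∈ range N, ec N (m * j) = ec N m ^ j := fun j _ => ec_mul N m j
  rw [Finset.sum_congr rfl h, geom_sum_eq (ec_ne_one N hN m hm), ec_N N hN, sub_self, zero_div]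

/-- the Fourier coefficients -/
def FF (N : ℕ) (z : ℕ → ℂ) (n : ℤ) : ℂ := ∑ j ∈ range N, z j * ec N (-n * j)

lemma bessel (N : ℕ) (hN : N ≠ 0) (z : ℕ → ℂ) (T : Finset ℤ)
    (hT : ∀ m ∈ T, ∀ n ∈ T, m ≠ n → ¬ (N : ℤ) ∣ n - m) :
    ∑ n ∈ T, ‖FF N z n‖ ^ 2 ≤ N * ∑ j ∈ range N, ‖z j‖ ^ 2 := by
  have hNR : (0 : ℝ) < N := Nat.cast_pos.2 (Nat.pos_of_ne_zero hN)
  let v : T → EuclideanSpace ℂ (Fin N) := fun n =>
    WithLp.toLp 2 fun j => ((Real.sqrt N : ℝ) : ℂ)⁻¹ * ec N (n.1 * (j : ℕ))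
  have hs : (((Real.sqrt N : ℝ) : ℂ)⁻¹) * (((Real.sqrt N : ℝ) : ℂ)⁻¹) = (N : ℂ)⁻¹ := by
    rw [← mul_inv, ← Complex.ofReal_mul, Real.mul_self_sqrt hNR.le, Complex.ofReal_natCast]
  have hv : Orthonormal ℂ v := by
    rw [orthonormal_iff_ite]
    intro m n
    rw [PiLp.inner_apply]
    have e : ∀ j : Fin N, inner ℂ (v m j) (v n j) = (N : ℂ)⁻¹ * ec N ((n.1 - m.1) * (j : ℕ)) := by
      intro j
      change inner ℂ (((Real.sqrt N : ℝ) : ℂ)⁻¹ * ec N (m.1 * (j : ℕ)))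
        (((Real.sqrt N : ℝ) : ℂ)⁻¹ * ec N (n.1 * (j : ℕ))) = _
      rw [RCLike.inner_apply, map_mul, map_inv₀, Complex.conj_ofReal, ec_conj, ← hs]
      have : ec N ((n.1 - m.1) * (j : ℕ)) = ec N (n.1 * (j : ℕ)) * ec N (-(m.1 * (j : ℕ))) := by
        rw [← ec_add]
        congr 1
        ring
      rw [this]
      ring
    rw [Finset.sum_congr rfl fun j _ => e j, ← Finset.mul_sum,
      Fin.sum_univ_eq_sum_range (fun j => ec N ((n.1 - m.1) * (j : ℕ))) N]
    split_ifs with h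
    · subst h
      rw [sub_self]
      simp only [zero_mul, ec_zero, Finset.sum_const, Finset.card_range, nsmul_eq_mul, mul_one]
      exact inv_mul_cancel₀ (Nat.cast_ne_zero.2 hN)
    · rw [geom N hN, mul_zero]
      exact hT m.1 m.2 n.1 n.2 fun hh => h (Subtype.ext hh)
  let x : EuclideanSpace ℂ (Fin N) := WithLp.toLp 2 fun j => z (j : ℕ)
  have hb := hv.sum_inner_products_le (s := Finset.univ) x
  have hx : ‖x‖ ^ 2 = ∑ j ∈ range N, ‖z j‖ ^ 2 := by
    rw [EuclideanSpace.norm_sq_eq, ← Fin.sum_univ_eq_sum_range (fun j => ‖z j‖ ^ 2) N]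
  have hi : ∀ n : T, ‖inner ℂ (v n) x‖ ^ 2 = (N : ℝ)⁻¹ * ‖FF N z n.1‖ ^ 2 := by
    intro n
    have e : inner ℂ (v n) x = ((Real.sqrt N : ℝ) : ℂ)⁻¹ * FF N z n.1 := by
      rw [PiLp.inner_apply, FF, ← Fin.sum_univ_eq_sum_range (fun j => z j * ec N (-n.1 * j)) N,
        Finset.mul_sum]
      apply Finset.sum_congr rfl
      intro j _
      change inner ℂ (((Real.sqrt N : ℝ) : ℂ)⁻¹ * ec N (n.1 * (j : ℕ))) (z (j : ℕ)) = _
      rw [RCLike.inner_apply, map_mul, map_inv₀, Complex.conj_ofReal, ec_conj, neg_mul]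
      ring
    rw [e, norm_mul, mul_pow, norm_inv, Complex.norm_real, Real.norm_of_nonneg (Real.sqrt_nonneg _),
      inv_pow, Real.sq_sqrt hNR.le]
  rw [Finset.sum_congr rfl fun n _ => hi n, ← Finset.mul_sum, hx,
    Finset.sum_coe_sort T (fun n => ‖FF N z n‖ ^ 2)] at hb
  rwa [inv_mul_le_iff₀ hNR] at hb

lemma ec_re (N : ℕ) (m : ℤ) : (ec N m).re = Real.cos (2 * π * m / N) := by
  rw [ec]
  have : (2 * π * Complex.I * m / N : ℂ) = ((2 * π * m / N : ℝ) : ℂ) * Complex.I := by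
    push_cast
    ring
  rw [this, Complex.exp_ofReal_mul_I_re]

lemma ec_im (N : ℕ) (m : ℤ) : (ec N m).im = Real.sin (2 * π * m / N) := by
  rw [ec]
  have : (2 * π * Complex.I * m / N : ℂ) = ((2 * π * m / N : ℝ) : ℂ) * Complex.I := by
    push_cast
    ring
  rw [this, Complex.exp_ofReal_mul_I_im]

theorem stComass : StComass := by
  intro N p s hp hs
  rcases s.eq_empty_or_nonempty with rfl | ⟨n0, hn0⟩
  · simp
  have hN : N ≠ 0 := by
    have := hs n0 hn0
    omega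
  have hNR : (0 : ℝ) < N := Nat.cast_pos.2 (Nat.pos_of_ne_zero hN)
  let z : ℕ → ℂ := fun j => ⟨p j 0, p j 1⟩
  have hz : ∀ j, ‖z j‖ ^ 2 ≤ 1 := by
    intro j
    have h1 : ‖z j‖ ^ 2 = ‖p j‖ ^ 2 := by
      rw [Complex.sq_norm, Complex.normSq_apply, EuclideanSpace.norm_sq_eq, Fin.sum_univ_two,
        Real.norm_eq_abs, Real.norm_eq_abs, sq_abs, sq_abs]
      simp only [z]
      ring
    rw [h1]
    have := hp j
    have h0 := norm_nonneg (p j)
    nlinarith
  -- Bessel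
  have hB : ∑ n ∈ s, (‖FF N z n‖ ^ 2 + ‖FF N z (-(n : ℤ))‖ ^ 2) ≤ (N : ℝ) ^ 2 := by
    let T : Finset ℤ := s.image (fun n : ℕ => (n : ℤ)) ∪ s.image (fun n : ℕ => -(n : ℤ))
    have hT : ∀ m ∈ T, ∀ n ∈ T, m ≠ n → ¬ (N : ℤ) ∣ n - m := by
      have hsmall : ∀ m ∈ T, 2 * |m| < N := by
        intro m hm
        rcases Finset.mem_union.1 hm with h | h
        · obtain ⟨k, hk, rfl⟩ := Finset.mem_image.1 h
          have := (hs k hk).2
          rw [Nat.abs_cast]
          omega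
        · obtain ⟨k, hk, rfl⟩ := Finset.mem_image.1 h
          have := (hs k hk).2
          rw [abs_neg, Nat.abs_cast]
          omega
      intro m hm n hn hmn hd
      have h1 := hsmall m hm
      have h2 := hsmall n hn
      have h3 : |n - m| < N := by
        have := abs_sub n m
        omega
      exact hmn (sub_eq_zero.1 (Int.eq_zero_of_abs_lt_dvd hd h3)).symm
    have hb := bessel N hN z T hT
    have hdis : Disjoint (s.image (fun n : ℕ => (n : ℤ))) (s.image (fun n : ℕ => -(n : ℤ))) := by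
      rw [Finset.disjoint_left]
      intro m h1 h2
      obtain ⟨k, hk, rfl⟩ := Finset.mem_image.1 h1
      obtain ⟨l, hl, h⟩ := Finset.mem_image.1 h2
      have := (hs k hk).1
      have := (hs l hl).1
      omega
    rw [Finset.sum_union hdis, Finset.sum_image (fun a _ b _ h => by exact_mod_cast h),
      Finset.sum_image (fun a _ b _ h => by
        have : -(a : ℤ) = -(b : ℤ) := h
        omega)] at hb
    rw [Finset.sum_add_distrib]
    refine hb.trans ?_
    have : ∑ j ∈ range N, ‖z j‖ ^ 2 ≤ N := by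
      calc ∑ j ∈ range N, ‖z j‖ ^ 2 ≤ ∑ j ∈ range N, (1 : ℝ) := Finset.sum_le_sum fun j _ => hz j
        _ = N := by simp
    nlinarith
  have hid : ∀ n : ℕ, 2 * ∑ j ∈ range N, ∑ k ∈ range N,
      Real.sin (n * ((2 * π / N * k) - (2 * π / N * j))) * (p j 0 * p k 1 - p j 1 * p k 0) =
      ‖FF N z n‖ ^ 2 - ‖FF N z (-(n : ℤ))‖ ^ 2 := by
    intro n
    let θ : ℕ → ℝ := fun j => n * (2 * π / N * j)
    have e1 : ∀ j : ℕ, (2 * π * ((-(n : ℤ) * (j : ℤ) : ℤ) : ℝ) / N) = - θ j := by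
      intro j
      simp only [θ]
      push_cast
      ring
    have e2 : ∀ j : ℕ, (2 * π * ((- -(n : ℤ) * (j : ℤ) : ℤ) : ℝ) / N) = θ j := by
      intro j
      simp only [θ]
      push_cast
      ring
    have r1 : (FF N z n).re = ∑ j ∈ range N, (p j 0 * Real.cos (θ j)) +
        ∑ j ∈ range N, (p j 1 * Real.sin (θ j)) := by
      rw [FF, Complex.re_sum, ← Finset.sum_add_distrib]
      apply Finset.sum_congr rfl
      intro j _
      rw [Complex.mul_re, ec_re, ec_im, e1, Real.cos_neg, Real.sin_neg]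
      simp only [z]
      ring
    have i1 : (FF N z n).im = ∑ j ∈ range N, (p j 1 * Real.cos (θ j)) -
        ∑ j ∈ range N, (p j 0 * Real.sin (θ j)) := by
      rw [FF, Complex.im_sum, ← Finset.sum_sub_distrib]
      apply Finset.sum_congr rfl
      intro j _
      rw [Complex.mul_im, ec_re, ec_im, e1, Real.cos_neg, Real.sin_neg]
      simp only [z]
      ring
    have r2 : (FF N z (-(n : ℤ))).re = ∑ j ∈ range N, (p j 0 * Real.cos (θ j)) -
        ∑ j ∈ range N, (p j 1 * Real.sin (θ j)) := by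
      rw [FF, Complex.re_sum, ← Finset.sum_sub_distrib]
      apply Finset.sum_congr rfl
      intro j _
      rw [Complex.mul_re, ec_re, ec_im, e2]
      
    have i2 : (FF N z (-(n : ℤ))).im = ∑ j ∈ range N, (p j 1 * Real.cos (θ j)) +
        ∑ j ∈ range N, (p j 0 * Real.sin (θ j)) := by
      rw [FF, Complex.im_sum, ← Finset.sum_add_distrib]
      apply Finset.sum_congr rfl
      intro j _
      rw [Complex.mul_im, ec_re, ec_im, e2]
      simp only [z]
      ring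
    rw [Complex.sq_norm, Complex.sq_norm, Complex.normSq_apply, Complex.normSq_apply, r1, i1, r2,
      i2]
    have e3 : ∀ j k : ℕ,
        Real.sin (n * ((2 * π / N * k) - (2 * π / N * j))) * (p j 0 * p k 1 - p j 1 * p k 0) =
        (p j 0 * Real.cos (θ j)) * (p k 1 * Real.sin (θ k)) -
        (p j 0 * Real.sin (θ j)) * (p k 1 * Real.cos (θ k)) -
        (p j 1 * Real.cos (θ j)) * (p k 0 * Real.sin (θ k)) +
        (p j 1 * Real.sin (θ j)) * (p k 0 * Real.cos (θ k)) := by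
      intro j k
      have : (n : ℝ) * ((2 * π / N * k) - (2 * π / N * j)) = θ k - θ j := by
        simp only [θ]
        ring
      rw [this, Real.sin_sub]
      ring
    simp only [e3, Finset.sum_add_distrib, Finset.sum_sub_distrib, ← Finset.mul_sum,
      ← Finset.sum_mul]
    ring
  have hsum : ∑ n ∈ s, 2 / (N : ℝ) ^ 2 * ∑ j ∈ range N, ∑ k ∈ range N,
      Real.sin (n * ((2 * π / N * k) - (2 * π / N * j))) * (p j 0 * p k 1 - p j 1 * p k 0) =
      ((N : ℝ) ^ 2)⁻¹ * ∑ n ∈ s, (‖FF N z n‖ ^ 2 - ‖FF N z (-(n : ℤ))‖ ^ 2) := by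
    rw [Finset.mul_sum]
    apply Finset.sum_congr rfl
    intro n _
    rw [← hid n]
    ring
  rw [hsum, abs_mul, abs_of_nonneg (by positivity : (0 : ℝ) ≤ ((N : ℝ) ^ 2)⁻¹),
    inv_mul_le_iff₀ (by positivity), mul_one]
  refine (Finset.abs_sum_le_sum_abs _ _).trans ((Finset.sum_le_sum fun n _ => ?_).trans hB)
  have h1 := sq_nonneg ‖FF N z n‖
  have h2 := sq_nonneg ‖FF N z (-(n : ℤ))‖
  rw [abs_le]
  constructor <;> linarith

end Pool.Agent.Y79.FA
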