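import Mathlib

/-!
Stokes' theorem for Lipschitz functions on the half plane, product form.
-/

set_option autoImplicit false

open Set Filter Topology Metric Function MeasureTheory
open scoped Real NNReal

noncomputable section

namespace Pool.Agent.Y79.FA.ES

/-- the fundamental theorem of calculus on a half line -/
lemma ftc_half {φ : ℝ → ℝ} {R : ℝ} (hR : 0 ≤ R) (hφ : AbsolutelyContinuousOnInterval φ 0 R)
    (h0 : ∀ x, R ≤ x → φ x = 0) : ∫ x in Ioi (0 : ℝ), deriv φ x = - φ 0 := by
  have h1 : ∫ x in Ioi (0 : ℝ), deriv φ x = ∫ x in Ioc 0 R, deriv φ x := by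
    apply setIntegral_eq_of_subset_of_forall_sdiff_eq_zero measurableSet_Ioi
      Ioc_subset_Ioi_self
    rintro x ⟨hx1, hx2⟩
    have hx : R < x := by
      by_contra hh
      exact hx2 ⟨hx1, not_lt.1 hh⟩
    have : φ =ᶠ[𝓝 x] fun _ => (0 : ℝ) := by
      filter_upwards [lt_mem_nhds hx] with y hy
      exact h0 y hy.le
    rw [this.deriv_eq, deriv_const]
  rw [h1, ← intervalIntegral.integral_of_le hR, hφ.integral_deriv_eq_sub, h0 R le_rfl, zero_sub]

/-- integrability of bounded functions with compact support -/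
lemma intg {k : ℝ × ℝ → ℝ} (hk : Measurable k) {M : ℝ} (hM : ∀ p, |k p| ≤ M)
    {K : Set (ℝ × ℝ)} (hK : IsCompact K) (h0 : ∀ p, p ∉ K → k p = 0) : Integrable k := by
  have h1 : IntegrableOn k K := by
    refine Measure.integrableOn_of_bounded (M := M) hK.measure_lt_top.ne
      hk.aestronglyMeasurable (Eventually.of_forall fun p => ?_)
    rw [Real.norm_eq_abs]
    exact hM p
  refine (integrableOn_iff_integrable_of_support_subset ?_).1 h1
  intro p hp
  by_contra hh
  exact hp (h0 p hh)

variable {F G : ℝ × ℝ → ℝ} {CF CG : ℝ≥0}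

/-- the partial derivative in the first variable -/
def d0 (F : ℝ × ℝ → ℝ) (p : ℝ × ℝ) : ℝ := fderiv ℝ F p (1, 0)

/-- the partial derivative in the second variable -/
def d1 (F : ℝ × ℝ → ℝ) (p : ℝ × ℝ) : ℝ := fderiv ℝ F p (0, 1)

lemma d0_meas (F : ℝ × ℝ → ℝ) : Measurable (d0 F) := measurable_fderiv_apply_const ℝ F (1, 0)

lemma d1_meas (F : ℝ × ℝ → ℝ) : Measurable (d1 F) := measurable_fderiv_apply_const ℝ F (0, 1)

lemma d0_le (hF : LipschitzWith CF F) (p : ℝ × ℝ) : |d0 F p| ≤ CF := by
  have h1 := (fderiv ℝ F p).le_opNorm (1, 0)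
  have h2 : ‖fderiv ℝ F p‖ ≤ CF := norm_fderiv_le_of_lipschitz ℝ hF
  have h3 : ‖((1 : ℝ), (0 : ℝ))‖ = 1 := by simp [Prod.norm_def]
  rw [h3, mul_one] at h1
  exact h1.trans h2

lemma d1_le (hF : LipschitzWith CF F) (p : ℝ × ℝ) : |d1 F p| ≤ CF := by
  have h1 := (fderiv ℝ F p).le_opNorm (0, 1)
  have h2 : ‖fderiv ℝ F p‖ ≤ CF := norm_fderiv_le_of_lipschitz ℝ hF
  have h3 : ‖((0 : ℝ), (1 : ℝ))‖ = 1 := by simp [Prod.norm_def]
  rw [h3, mul_one] at h1
  exact h1.trans h2

lemma d0_hasDerivAt {x t : ℝ} (h : DifferentiableAt ℝ F (x, t)) :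
    HasDerivAt (fun x => F (x, t)) (d0 F (x, t)) x := by
  have h1 : HasDerivAt (fun x : ℝ => (x, t)) ((1 : ℝ), (0 : ℝ)) x :=
    (hasDerivAt_id x).prodMk (hasDerivAt_const x t)
  exact h.hasFDerivAt.comp_hasDerivAt x h1

lemma d1_hasDerivAt {x t : ℝ} (h : DifferentiableAt ℝ F (x, t)) :
    HasDerivAt (fun t => F (x, t)) (d1 F (x, t)) t := by
  have h1 : HasDerivAt (fun t : ℝ => (x, t)) ((0 : ℝ), (1 : ℝ)) t :=
    (hasDerivAt_const t x).prodMk (hasDerivAt_id t)
  exact h.hasFDerivAt.comp_hasDerivAt t h1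

lemma slice_x (hF : LipschitzWith CF F) (t : ℝ) : LipschitzWith CF (fun x => F (x, t)) := by
  have h1 : LipschitzWith 1 (fun x : ℝ => (x, t)) := LipschitzWith.prodMk_right t
  have h2 := hF.comp h1
  rw [mul_one] at h2
  exact h2

lemma slice_t (hF : LipschitzWith CF F) (x : ℝ) : LipschitzWith CF (fun t => F (x, t)) := by
  have h1 : LipschitzWith 1 (fun t : ℝ => (x, t)) := LipschitzWith.prodMk_left x
  have h2 := hF.comp h1
  rw [mul_one] at h2
  exact h2

/-- the measure of the half plane -/
def μH : Measure (ℝ × ℝ) := ((volume : Measure ℝ).restrict (Ioi 0)).prod volume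

lemma μH_eq : μH = (volume : Measure (ℝ × ℝ)).restrict (Ioi 0 ×ˢ univ) := by
  rw [μH, Measure.volume_eq_prod, ← Measure.prod_restrict, Measure.restrict_univ]

lemma intgH {k : ℝ × ℝ → ℝ} (hk : Measurable k) {M : ℝ} (hM : ∀ p, |k p| ≤ M)
    {K : Set (ℝ × ℝ)} (hK : IsCompact K) (h0 : ∀ p, p ∉ K → k p = 0) : Integrable k μH := by
  rw [μH_eq]
  exact (intg hk hM hK h0).integrableOn

lemma shift_diff (hG : LipschitzWith CG G) (h : ℝ) :
    ∀ᵐ p : ℝ × ℝ, DifferentiableAt ℝ G (p.1, p.2 + h) := by
  have h1 := (measurePreserving_add_right (volume : Measure (ℝ × ℝ)) ((0 : ℝ), h)).quasiMeasurePreserving.ae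
    hG.ae_differentiableAt
  filter_upwards [h1] with p hp
  have : p + ((0 : ℝ), h) = (p.1, p.2 + h) := by
    ext <;> simp
  rwa [this] at hp

lemma ae_swap {P : ℝ × ℝ → Prop} (h : ∀ᵐ p : ℝ × ℝ, P p) : ∀ᵐ t : ℝ, ∀ᵐ x : ℝ, P (x, t) := by
  have h1 : ∀ᵐ q : ℝ × ℝ, P q.swap := by
    rw [Measure.volume_eq_prod] at h ⊢
    exact Measure.measurePreserving_swap.quasiMeasurePreserving.ae h
  rw [Measure.volume_eq_prod] at h1
  exact Measure.ae_ae_of_ae_prod h1

lemma sub_le (hG : LipschitzWith CG G) (p : ℝ × ℝ) (h : ℝ) :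
    |G (p.1, p.2 + h) - G p| ≤ CG * |h| := by
  have := (slice_t hG p.1).dist_le_mul (p.2 + h) p.2
  rw [Real.dist_eq, Real.dist_eq] at this
  simpa using this

lemma bdd (hF : LipschitzWith CF F) (hFs : HasCompactSupport F) : ∃ M : ℝ, ∀ p, |F p| ≤ M := by
  obtain ⟨M, hM⟩ := hFs.exists_bound_of_continuous hF.continuous
  exact ⟨M, fun p => by simpa using hM p⟩

lemma d0_zero {p : ℝ × ℝ} (h : p ∉ tsupport F) : d0 F p = 0 := by
  rw [d0, fderiv_of_notMem_tsupport ℝ h]
  rfl

lemma step1 (hF : LipschitzWith CF F) (hFs : HasCompactSupport F) (hG : LipschitzWith CG G)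
    (h : ℝ) :
    ∫ p, (d0 F p * (G (p.1, p.2 + h) - G p) + F p * (d0 G (p.1, p.2 + h) - d0 G p)) ∂μH =
      - ∫ t, F (0, t) * (G (0, t + h) - G (0, t)) := by
  obtain ⟨M, hM⟩ := bdd hF hFs
  have hm : Measurable fun p : ℝ × ℝ => (p.1, p.2 + h) := by fun_prop
  have hint : Integrable (fun p => d0 F p * (G (p.1, p.2 + h) - G p) +
      F p * (d0 G (p.1, p.2 + h) - d0 G p)) μH := by
    refine intgH (M := CF * (CG * |h|) + M * (CG + CG)) ?_ ?_ hFs.isCompact ?_
    · exact ((d0_meas F).mul ((hG.continuous.measurable.comp hm).sub hG.continuous.measurable)).add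
        (hF.continuous.measurable.mul (((d0_meas G).comp hm).sub (d0_meas G)))
    · intro p
      refine (abs_add_le _ _).trans (add_le_add ?_ ?_)
      · rw [abs_mul]
        exact mul_le_mul (d0_le hF p) (sub_le hG p h) (abs_nonneg _) CF.2
      · rw [abs_mul]
        refine mul_le_mul (hM p) ?_ (abs_nonneg _) ((abs_nonneg _).trans (hM p))
        exact (abs_sub _ _).trans (add_le_add (d0_le hG _) (d0_le hG _))
    · intro p hp
      rw [d0_zero hp, image_eq_zero_of_notMem_tsupport hp, zero_mul, zero_mul, add_zero]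
  rw [μH, integral_prod_symm _ hint, ← integral_neg]
  apply integral_congr_ae
  obtain ⟨R0, hR0⟩ := hFs.isCompact.isBounded.subset_closedBall (0 : ℝ × ℝ)
  set R := max R0 0 + 1 with hRdef
  have hRpos : 0 ≤ R := by positivity
  have hR : ∀ x t : ℝ, R ≤ x → F (x, t) = 0 := by
    intro x t hx
    apply image_eq_zero_of_notMem_tsupport
    intro hh
    have h1 := hR0 hh
    rw [mem_closedBall, dist_zero_right, Prod.norm_def] at h1
    have h2 : ‖x‖ ≤ R0 := (le_max_left _ _).trans h1
    rw [Real.norm_eq_abs] at h2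
    have h3 := le_abs_self x
    have h4 := le_max_left R0 0
    linarith
  filter_upwards [ae_swap hF.ae_differentiableAt, ae_swap hG.ae_differentiableAt,
    ae_swap (shift_diff hG h)] with t h1 h2 h3
  have hac : AbsolutelyContinuousOnInterval (fun x => F (x, t) * (G (x, t + h) - G (x, t))) 0 R :=
    ((slice_x hF t).lipschitzOnWith.absolutelyContinuousOnInterval).fun_mul
      (((slice_x hG (t + h)).lipschitzOnWith.absolutelyContinuousOnInterval).fun_sub
        ((slice_x hG t).lipschitzOnWith.absolutelyContinuousOnInterval))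
  have := ftc_half hRpos hac (fun x hx => by rw [hR x t hx, zero_mul])
  rw [← this]
  apply integral_congr_ae
  filter_upwards [ae_restrict_of_ae h1, ae_restrict_of_ae h2, ae_restrict_of_ae h3] with x k1 k2 k3
  have := (d0_hasDerivAt k1).mul ((d0_hasDerivAt k3).sub (d0_hasDerivAt k2))
  exact this.deriv.symm

/-- the vertical translation of the half plane -/
def shE (h : ℝ) : ℝ × ℝ ≃ᵐ ℝ × ℝ := (MeasurableEquiv.refl ℝ).prodCongr (MeasurableEquiv.addRight h)

lemma shE_mp (h : ℝ) : MeasurePreserving (shE h) μH μH := by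
  have h1 : MeasurePreserving (id : ℝ → ℝ) ((volume : Measure ℝ).restrict (Ioi 0))
    ((volume : Measure ℝ).restrict (Ioi 0)) := MeasurePreserving.id _
  have h2 : MeasurePreserving (fun t : ℝ => t + h) (volume : Measure ℝ) volume :=
    measurePreserving_add_right volume h
  exact h1.prod h2

lemma step2 (hF : LipschitzWith CF F) (hFs : HasCompactSupport F) (hG : LipschitzWith CG G)
    (h : ℝ) :
    ∫ p, (d0 F p * (G (p.1, p.2 + h) - G p) + (F (p.1, p.2 - h) - F p) * d0 G p) ∂μH =
      - ∫ t, F (0, t) * (G (0, t + h) - G (0, t)) := by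
  obtain ⟨M, hM⟩ := bdd hF hFs
  have hm : Measurable fun p : ℝ × ℝ => (p.1, p.2 + h) := by fun_prop
  have hm' : Measurable fun p : ℝ × ℝ => (p.1, p.2 - h) := by fun_prop
  have i1 : Integrable (fun p => d0 F p * (G (p.1, p.2 + h) - G p)) μH := by
    refine intgH (M := CF * (CG * |h|)) ?_ ?_ hFs.isCompact ?_
    · exact (d0_meas F).mul ((hG.continuous.measurable.comp hm).sub hG.continuous.measurable)
    · intro p
      rw [abs_mul]
      exact mul_le_mul (d0_le hF p) (sub_le hG p h) (abs_nonneg _) CF.2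
    · intro p hp
      rw [d0_zero hp, zero_mul]
  have i2 : Integrable (fun p => F p * d0 G (p.1, p.2 + h)) μH := by
    refine intgH (M := M * CG) ?_ ?_ hFs.isCompact ?_
    · exact hF.continuous.measurable.mul ((d0_meas G).comp hm)
    · intro p
      rw [abs_mul]
      exact mul_le_mul (hM p) (d0_le hG _) (abs_nonneg _) ((abs_nonneg _).trans (hM p))
    · intro p hp
      rw [image_eq_zero_of_notMem_tsupport hp, zero_mul]
  have i3 : Integrable (fun p => F p * d0 G p) μH := by
    refine intgH (M := M * CG) ?_ ?_ hFs.isCompact ?_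
    · exact hF.continuous.measurable.mul (d0_meas G)
    · intro p
      rw [abs_mul]
      exact mul_le_mul (hM p) (d0_le hG _) (abs_nonneg _) ((abs_nonneg _).trans (hM p))
    · intro p hp
      rw [image_eq_zero_of_notMem_tsupport hp, zero_mul]
  have e4 : (fun p : ℝ × ℝ => F p * d0 G (p.1, p.2 + h)) =
      (fun p : ℝ × ℝ => F (p.1, p.2 - h) * d0 G p) ∘ (shE h) := by
    funext p
    change F p * d0 G (p.1, p.2 + h) = F (p.1, p.2 + h - h) * d0 G (p.1, p.2 + h)
    rw [add_sub_cancel_right]
  have i4 : Integrable (fun p : ℝ × ℝ => F (p.1, p.2 - h) * d0 G p) μH := by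
    rw [e4] at i2
    exact ((shE_mp h).integrable_comp_emb (shE h).measurableEmbedding).1 i2
  have h4 : ∫ p, F p * d0 G (p.1, p.2 + h) ∂μH = ∫ p, F (p.1, p.2 - h) * d0 G p ∂μH := by
    rw [← (shE_mp h).integral_comp' (g := fun p : ℝ × ℝ => F (p.1, p.2 - h) * d0 G p)]
    exact congrArg (fun k : ℝ × ℝ → ℝ => ∫ p, k p ∂μH) e4
  rw [← step1 hF hFs hG h]
  have e1 : (fun p => d0 F p * (G (p.1, p.2 + h) - G p) +
      (F (p.1, p.2 - h) - F p) * d0 G p) = fun p => d0 F p * (G (p.1, p.2 + h) - G p) +
      (F (p.1, p.2 - h) * d0 G p - F p * d0 G p) := by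
    funext p
    ring
  have e2 : (fun p => d0 F p * (G (p.1, p.2 + h) - G p) +
      F p * (d0 G (p.1, p.2 + h) - d0 G p)) = fun p => d0 F p * (G (p.1, p.2 + h) - G p) +
      (F p * d0 G (p.1, p.2 + h) - F p * d0 G p) := by
    funext p
    ring
  have i43 : Integrable (fun p : ℝ × ℝ => F (p.1, p.2 - h) * d0 G p - F p * d0 G p) μH :=
    i4.sub i3
  have i23 : Integrable (fun p : ℝ × ℝ => F p * d0 G (p.1, p.2 + h) - F p * d0 G p) μH :=
    i2.sub i3
  rw [e1, e2, integral_add i1 i43, integral_add i1 i23, integral_sub i4 i3,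
    integral_sub i2 i3, h4]

/-- Stokes' theorem for Lipschitz functions, in the half plane -/
theorem core (hF : LipschitzWith CF F) (hFs : HasCompactSupport F) (hG : LipschitzWith CG G) :
    ∫ p, (d0 F p * d1 G p - d1 F p * d0 G p) ∂μH =
      - ∫ t, F (0, t) * deriv (fun t => G (0, t)) t := by
  let h : ℕ → ℝ := fun n => ((n : ℝ) + 1)⁻¹
  have hpos : ∀ n, 0 < h n := fun n => by positivity
  have hle : ∀ n, h n ≤ 1 := fun n => by
    apply inv_le_one_of_one_le₀
    have := Nat.cast_nonneg (α := ℝ) n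
    linarith
  have hlim : Tendsto h atTop (𝓝[≠] 0) := by
    rw [tendsto_nhdsWithin_iff]
    refine ⟨?_, Eventually.of_forall fun n => (hpos n).ne'⟩
    have := tendsto_one_div_add_atTop_nhds_zero_nat (𝕜 := ℝ)
    simpa only [one_div] using this
  have hlim' : Tendsto (fun n => - h n) atTop (𝓝[≠] 0) := by
    rw [tendsto_nhdsWithin_iff] at hlim ⊢
    refine ⟨by simpa using hlim.1.neg, Eventually.of_forall fun n => ?_⟩
    exact neg_ne_zero.2 (hpos n).ne'
  obtain ⟨R, hR⟩ := hFs.isCompact.isBounded.subset_closedBall (0 : ℝ × ℝ)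
  have hz : ∀ p : ℝ × ℝ, p ∉ closedBall (0 : ℝ × ℝ) (R + 1) → F p = 0 ∧ d0 F p = 0 ∧
      ∀ n, F (p.1, p.2 - h n) = 0 := by
    intro p hp
    rw [mem_closedBall, dist_zero_right, not_le] at hp
    have h1 : p ∉ tsupport F := by
      intro hh
      have := hR hh
      rw [mem_closedBall, dist_zero_right] at this
      linarith
    refine ⟨image_eq_zero_of_notMem_tsupport h1, d0_zero h1, fun n => ?_⟩
    apply image_eq_zero_of_notMem_tsupport
    intro hh
    have h2 := hR hh
    rw [mem_closedBall, dist_zero_right] at h2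
    have h3 : p = (p.1, p.2 - h n) + (0, h n) := by ext <;> simp
    have h4 : ‖p‖ ≤ ‖(p.1, p.2 - h n)‖ + ‖((0 : ℝ), h n)‖ := by
      conv_lhs => rw [h3]
      exact norm_add_le _ _
    have h5 : ‖((0 : ℝ), h n)‖ ≤ 1 := by
      rw [Prod.norm_def, norm_zero, Real.norm_of_nonneg (hpos n).le]
      exact max_le zero_le_one (hle n)
    linarith
  have hm : ∀ n, Measurable fun p : ℝ × ℝ => (p.1, p.2 + h n) := fun n => by fun_prop
  have hm' : ∀ n, Measurable fun p : ℝ × ℝ => (p.1, p.2 - h n) := fun n => by fun_prop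
  -- the left hand side
  have hL : Tendsto (fun n => ∫ p, (d0 F p * ((G (p.1, p.2 + h n) - G p) / h n) +
      (F (p.1, p.2 - h n) - F p) / h n * d0 G p) ∂μH) atTop
      (𝓝 (∫ p, (d0 F p * d1 G p - d1 F p * d0 G p) ∂μH)) := by
    apply tendsto_integral_of_dominated_convergence
      ((closedBall (0 : ℝ × ℝ) (R + 1)).indicator fun _ => (CF * CG + CF * CG : ℝ))
    · intro n
      refine Measurable.aestronglyMeasurable ?_
      exact ((d0_meas F).mul (((hG.continuous.measurable.comp (hm n)).sub
        hG.continuous.measurable).div_const _)).add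
        ((((hF.continuous.measurable.comp (hm' n)).sub hF.continuous.measurable).div_const _).mul
          (d0_meas G))
    · rw [μH_eq]
      refine Integrable.integrableOn ?_
      rw [integrable_indicator_iff measurableSet_closedBall]
      exact integrableOn_const (isCompact_closedBall _ _).measure_lt_top.ne
    · intro n
      refine Eventually.of_forall fun p => ?_
      by_cases hp : p ∈ closedBall (0 : ℝ × ℝ) (R + 1)
      · rw [indicator_of_mem hp, Real.norm_eq_abs]
        refine (abs_add_le _ _).trans (add_le_add ?_ ?_)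
        · rw [abs_mul]
          refine mul_le_mul (d0_le hF p) ?_ (abs_nonneg _) CF.2
          rw [abs_div, abs_of_pos (hpos n), div_le_iff₀ (hpos n)]
          have := sub_le hG p (h n)
          rwa [abs_of_pos (hpos n)] at this
        · rw [abs_mul]
          refine mul_le_mul ?_ (d0_le hG p) (abs_nonneg _) CF.2
          rw [abs_div, abs_of_pos (hpos n), div_le_iff₀ (hpos n)]
          have := sub_le hF p (- h n)
          rwa [abs_neg, abs_of_pos (hpos n), ← sub_eq_add_neg] at this
      · rw [indicator_of_notMem hp]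
        obtain ⟨z1, z2, z3⟩ := hz p hp
        rw [z1, z2, z3 n]
        simp
    · rw [μH_eq]
      filter_upwards [ae_restrict_of_ae hF.ae_differentiableAt,
        ae_restrict_of_ae hG.ae_differentiableAt] with p hp1 hp2
      have g1 : Tendsto (fun n => (G (p.1, p.2 + h n) - G p) / h n) atTop (𝓝 (d1 G p)) := by
        have := (d1_hasDerivAt (x := p.1) (t := p.2) hp2).tendsto_slope_zero.comp hlim
        refine this.congr fun n => ?_
        simp only [Function.comp_apply, smul_eq_mul]
        rw [div_eq_inv_mul]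
      have f1 : Tendsto (fun n => (F (p.1, p.2 - h n) - F p) / h n) atTop (𝓝 (- d1 F p)) := by
        have := ((d1_hasDerivAt (x := p.1) (t := p.2) hp1).tendsto_slope_zero.comp hlim').neg
        refine this.congr fun n => ?_
        simp only [Function.comp_apply, smul_eq_mul]
        rw [div_eq_inv_mul, inv_neg, ← sub_eq_add_neg]
        ring
      have := (g1.const_mul (d0 F p)).add (f1.mul_const (d0 G p))
      have e : d0 F p * d1 G p - d1 F p * d0 G p = d0 F p * d1 G p + - d1 F p * d0 G p := by ring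
      rw [e]
      exact this
  -- the right hand side
  have hRt : Tendsto (fun n => - ∫ t, F (0, t) * ((G (0, t + h n) - G (0, t)) / h n)) atTop
      (𝓝 (- ∫ t, F (0, t) * deriv (fun t => G (0, t)) t)) := by
    refine Tendsto.neg ?_
    have hFc : Continuous fun t : ℝ => F (0, t) := (slice_t hF 0).continuous
    have hFcs : HasCompactSupport fun t : ℝ => F (0, t) := by
      refine HasCompactSupport.intro (isCompact_closedBall (0 : ℝ) R) fun t ht => ?_
      apply image_eq_zero_of_notMem_tsupport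
      intro hh
      have := hR hh
      rw [mem_closedBall, dist_zero_right, Prod.norm_def] at this
      apply ht
      rw [mem_closedBall, dist_zero_right]
      exact (le_max_right _ _).trans this
    apply tendsto_integral_of_dominated_convergence (fun t => |F (0, t)| * CG)
    · intro n
      refine Continuous.aestronglyMeasurable ?_
      have hGc : Continuous fun t : ℝ => G (0, t) := (slice_t hG 0).continuous
      exact hFc.mul (((hGc.comp (continuous_id.add continuous_const)).sub hGc).div_const _)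
    · have := (hFc.integrable_of_hasCompactSupport hFcs (μ := volume)).norm.mul_const (CG : ℝ)
      simpa only [Real.norm_eq_abs] using this
    · intro n
      refine Eventually.of_forall fun t => ?_
      rw [norm_mul, Real.norm_eq_abs, Real.norm_eq_abs]
      refine mul_le_mul_of_nonneg_left ?_ (abs_nonneg _)
      rw [abs_div, abs_of_pos (hpos n), div_le_iff₀ (hpos n)]
      have := sub_le hG (0, t) (h n)
      rwa [abs_of_pos (hpos n)] at this
    · filter_upwards [(slice_t hG 0).ae_differentiableAt_real] with t ht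
      refine Tendsto.const_mul _ ?_
      have := ht.hasDerivAt.tendsto_slope_zero.comp hlim
      refine this.congr fun n => ?_
      simp only [Function.comp_apply, smul_eq_mul]
      rw [div_eq_inv_mul]
  refine tendsto_nhds_unique hL (hRt.congr fun n => ?_)
  have h2 := step2 hF hFs hG (h n)
  have e1 : ∫ p, (d0 F p * ((G (p.1, p.2 + h n) - G p) / h n) +
      (F (p.1, p.2 - h n) - F p) / h n * d0 G p) ∂μH =
      (∫ p, (d0 F p * (G (p.1, p.2 + h n) - G p) +
        (F (p.1, p.2 - h n) - F p) * d0 G p) ∂μH) / h n := by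
    rw [← integral_div]
    congr 1
    funext p
    ring
  have e2 : ∫ t, F (0, t) * ((G (0, t + h n) - G (0, t)) / h n) =
      (∫ t, F (0, t) * (G (0, t + h n) - G (0, t))) / h n := by
    rw [← integral_div]
    congr 1
    funext t
    ring
  rw [e1, e2, h2, neg_div]

end Pool.Agent.Y79.FA.ES
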