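import Mathlib
import Pool.Agent.Y522.FA.Stm
import Pool.Agent.Y79.FA.ESa

/-!
Stokes' theorem for Lipschitz functions in the half plane.
-/

set_option autoImplicit false

open Set Filter Topology Metric Function MeasureTheory
open scoped Real NNReal

noncomputable section

namespace Pool.Agent.Y79.FA

open Pool.Agent.Y522.FA
open Pool.Agent.Y79.FA.ES

/-- the coordinates of the plane -/
def LL : (ℝ × ℝ) ≃L[ℝ] E2 :=
  (ContinuousLinearEquiv.finTwoArrow ℝ ℝ).symm.trans (EuclideanSpace.equiv (Fin 2) ℝ).symm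

lemma LL_zero (p : ℝ × ℝ) : (LL p) 0 = p.1 := rfl

lemma LL_one (p : ℝ × ℝ) : (LL p) 1 = p.2 := rfl

lemma LL_bv0 : LL (1, 0) = bv 0 := by
  ext i
  fin_cases i
  · change (1 : ℝ) = _
    simp [bv]
  · change (0 : ℝ) = _
    simp [bv]

lemma LL_bv1 : LL (0, 1) = bv 1 := by
  ext i
  fin_cases i
  · change (0 : ℝ) = _
    simp [bv]
  · change (1 : ℝ) = _
    simp [bv]

lemma LL_bp (t : ℝ) : LL (0, t) = bp t := by
  rw [bp, ← LL_bv1, ← map_smul]
  congr 1
  ext <;> simp

lemma bp_zero (t : ℝ) : (bp t) 0 = 0 := by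
  rw [← LL_bp, LL_zero]

lemma LL_mp : MeasurePreserving LL := by
  have h1 : MeasurePreserving (MeasurableEquiv.finTwoArrow (α := ℝ)).symm :=
    (volume_preserving_finTwoArrow ℝ).symm
  have h2 : MeasurePreserving (MeasurableEquiv.toLp 2 (Fin 2 → ℝ)) :=
    EuclideanSpace.volume_preserving_symm_measurableEquiv_toLp (Fin 2) |>.symm
  have h3 := h2.comp h1
  have e : (LL : ℝ × ℝ → E2) = (MeasurableEquiv.toLp 2 (Fin 2 → ℝ)) ∘
      (MeasurableEquiv.finTwoArrow (α := ℝ)).symm := by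
    funext p
    ext i
    fin_cases i <;> rfl
  rw [e]
  exact h3

/-- Stokes' theorem for globally Lipschitz functions -/
theorem coreE {U V : E2 → ℝ} {CU CV : ℝ≥0} (hU : LipschitzWith CU U) (hUs : HasCompactSupport U)
    (hV : LipschitzWith CV V) :
    ∫ z in {z : E2 | 0 < z 0}, cr (fderiv ℝ U z) (fderiv ℝ V z) =
      - ∫ t : ℝ, U (bp t) * deriv (fun t => V (bp t)) t := by
  have hL : LipschitzWith ‖(LL : (ℝ × ℝ) →L[ℝ] E2)‖₊ LL := (LL : (ℝ × ℝ) →L[ℝ] E2).lipschitz
  have h1 : LipschitzWith _ (U ∘ LL) := hU.comp hL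
  have h2 : LipschitzWith _ (V ∘ LL) := hV.comp hL
  have h3 : HasCompactSupport (U ∘ LL) := hUs.comp_homeomorph LL.toHomeomorph
  have h4 := core h1 h3 h2
  have e1 : ∫ z in {z : E2 | 0 < z 0}, cr (fderiv ℝ U z) (fderiv ℝ V z) =
      ∫ p in LL ⁻¹' {z : E2 | 0 < z 0}, cr (fderiv ℝ U (LL p)) (fderiv ℝ V (LL p)) :=
    (LL_mp.setIntegral_preimage_emb LL.toHomeomorph.measurableEmbedding _ _).symm
  have e2 : (LL ⁻¹' {z : E2 | 0 < z 0} : Set (ℝ × ℝ)) = Ioi 0 ×ˢ univ := by
    ext p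
    simp only [mem_preimage, mem_ofPred_eq, LL_zero, mem_prod, mem_Ioi, mem_univ, and_true]
  rw [e1, e2]
  rw [μH_eq] at h4
  have e3 : ∀ p : ℝ × ℝ, d0 (U ∘ LL) p * d1 (V ∘ LL) p - d1 (U ∘ LL) p * d0 (V ∘ LL) p =
      cr (fderiv ℝ U (LL p)) (fderiv ℝ V (LL p)) := by
    intro p
    rw [d0, d1, d0, d1, LL.comp_right_fderiv, LL.comp_right_fderiv, cr, ← LL_bv0, ← LL_bv1]
    rfl
  simp only [e3, Function.comp_apply, LL_bp] at h4
  exact h4

/-- the fold of the plane onto the half plane -/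
def fold (z : E2) : E2 := LL (|z 0|, z 1)

lemma fold_eq {z : E2} (h : 0 ≤ z 0) : fold z = z := by
  ext i
  fin_cases i
  · exact abs_of_nonneg h
  · rfl

lemma fold_mem (z : E2) : 0 ≤ (fold z) 0 := abs_nonneg _

lemma fold_norm (z : E2) : ‖fold z‖ = ‖z‖ := by
  rw [EuclideanSpace.norm_eq, EuclideanSpace.norm_eq, Fin.sum_univ_two, Fin.sum_univ_two]
  congr 2
  change ‖|z 0|‖ ^ 2 = _
  rw [Real.norm_eq_abs, abs_abs, Real.norm_eq_abs]

lemma fold_lip : LipschitzWith 1 fold := by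
  apply LipschitzWith.of_dist_le_mul
  intro z w
  rw [NNReal.coe_one, one_mul, EuclideanSpace.dist_eq, EuclideanSpace.dist_eq, Fin.sum_univ_two,
    Fin.sum_univ_two]
  apply Real.sqrt_le_sqrt
  have h1 : dist (fold z 0) (fold w 0) ≤ dist (z 0) (w 0) := abs_abs_sub_abs_le (z 0) (w 0)
  have h2 : dist (fold z 1) (fold w 1) = dist (z 1) (w 1) := rfl
  rw [h2]
  have := pow_le_pow_left₀ dist_nonneg h1 2
  linarith

lemma closed_half : IsClosed {z : E2 | 0 ≤ z 0} := by
  have : Continuous fun z : E2 => z 0 := by fun_prop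
  exact isClosed_le continuous_const this

lemma open_half : IsOpen {z : E2 | 0 < z 0} := by
  have : Continuous fun z : E2 => z 0 := by fun_prop
  exact isOpen_lt continuous_const this

lemma lip_half {u : E2 → ℝ} {K : Set E2} (hK : IsCompact K) (h0 : ∀ z, z ∉ K → u z = 0)
    (hl : LocallyLipschitzOn {z : E2 | 0 ≤ z 0} u) :
    ∃ C : ℝ≥0, LipschitzOnWith C u {z : E2 | 0 ≤ z 0} := by
  obtain ⟨R, hR⟩ := hK.isBounded.subset_closedBall (0 : E2)
  have hS : IsCompact ({z : E2 | 0 ≤ z 0} ∩ closedBall 0 (R + 1)) :=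
    (isCompact_closedBall _ _).inter_left closed_half
  have hl' : LocallyLipschitzOn ({z : E2 | 0 ≤ z 0} ∩ closedBall 0 (R + 1)) u :=
    hl.mono inter_subset_left
  obtain ⟨C, hC⟩ := hl'.exists_lipschitzOnWith_of_compact hS
  obtain ⟨M, hM⟩ := hS.exists_bound_of_continuousOn hC.continuousOn
  refine ⟨C + M.toNNReal, LipschitzOnWith.of_dist_le_mul ?_⟩
  have far : ∀ x y : E2, x ∈ {z : E2 | 0 ≤ z 0} → y ∈ {z : E2 | 0 ≤ z 0} →
      x ∉ closedBall (0 : E2) (R + 1) → dist (u x) (u y) ≤ (C + M.toNNReal : ℝ≥0) * dist x y := by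
    intro x y hx hy hxR
    rw [mem_closedBall, dist_zero_right, not_le] at hxR
    have hx0 : u x = 0 := by
      apply h0
      intro hh
      have := hR hh
      rw [mem_closedBall, dist_zero_right] at this
      linarith
    by_cases hyR : y ∈ closedBall (0 : E2) R
    · rw [mem_closedBall, dist_zero_right] at hyR
      have hy1 : ‖u y‖ ≤ M := hM y ⟨hy, by
        rw [mem_closedBall, dist_zero_right]
        linarith⟩
      have hM0 : 0 ≤ M := (norm_nonneg _).trans hy1
      have hd : 1 ≤ dist x y := by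
        have h1 := norm_sub_norm_le x y
        rw [dist_eq_norm]
        linarith
      rw [hx0, dist_zero_left, NNReal.coe_add, Real.coe_toNNReal M hM0]
      have hC0 : (0 : ℝ) ≤ C := C.2
      nlinarith
    · have hy0 : u y = 0 := by
        apply h0
        intro hh
        exact hyR (hR hh)
      rw [hx0, hy0, dist_self]
      exact mul_nonneg (NNReal.coe_nonneg _) dist_nonneg
  intro x hx y hy
  by_cases hxR : x ∈ closedBall (0 : E2) (R + 1)
  · by_cases hyR : y ∈ closedBall (0 : E2) (R + 1)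
    · refine (hC.dist_le_mul x ⟨hx, hxR⟩ y ⟨hy, hyR⟩).trans ?_
      refine mul_le_mul_of_nonneg_right ?_ dist_nonneg
      rw [NNReal.coe_add]
      exact le_add_of_nonneg_right (NNReal.coe_nonneg _)
    · rw [dist_comm (u x), dist_comm x]
      exact far y x hy hx hyR
  · exact far x y hx hy hxR

lemma null_line : volume {z : E2 | z 0 = 0} = 0 := by
  let f : E2 →ₗ[ℝ] ℝ :=
    { toFun := fun z => z 0
      map_add' := fun _ _ => rfl
      map_smul' := fun _ _ => rfl }
  have h1 : ({z : E2 | z 0 = 0} : Set E2) = (LinearMap.ker f : Set E2) := by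
    ext z
    rfl
  rw [h1]
  apply Measure.addHaar_submodule
  intro h2
  have h3 : (bv 0) ∈ LinearMap.ker f := h2 ▸ Submodule.mem_top
  rw [LinearMap.mem_ker] at h3
  have h4 : f (bv 0) = 1 := by
    change (bv 0) 0 = 1
    simp [bv]
  rw [h4] at h3
  exact one_ne_zero h3

theorem stEStokes : StEStokes := by
  intro O K u v hO hK hKO hu0 hloc
  have hK' : IsCompact (K ∩ {z : E2 | 0 ≤ z 0}) := hK.inter_right closed_half
  obtain ⟨T, hT, hKT, hTO⟩ := exists_compact_between hK' hO (inter_subset_left.trans hKO)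
  -- the function `v`
  have hS : IsCompact (T ∩ {z : E2 | 0 ≤ z 0}) := hT.inter_right closed_half
  have hvS : LocallyLipschitzOn (T ∩ {z : E2 | 0 ≤ z 0}) v := by
    intro z hz
    obtain ⟨C, δ, hδ, -, hC⟩ := hloc z (hTO hz.1) hz.2
    refine ⟨C, _, ?_, hC⟩
    rw [Metric.mem_nhdsWithin_iff]
    exact ⟨δ, hδ, fun w hw => ⟨⟨hTO hw.2.1, hw.2.2⟩, hw.1⟩⟩
  obtain ⟨CV, hCV⟩ := hvS.exists_lipschitzOnWith_of_compact hS
  obtain ⟨V, hV, hVv⟩ := hCV.extend_real
  -- the function `u`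
  have huH : LocallyLipschitzOn {z : E2 | 0 ≤ z 0} u := by
    intro z hz
    by_cases hzO : z ∈ O
    · obtain ⟨C, δ, hδ, hC, -⟩ := hloc z hzO hz
      refine ⟨C, _, ?_, hC⟩
      obtain ⟨ε, hε, hεO⟩ := Metric.isOpen_iff.1 hO z hzO
      rw [Metric.mem_nhdsWithin_iff]
      refine ⟨min ε δ, lt_min hε hδ, fun w hw => ⟨⟨hεO ?_, hw.2⟩, ?_⟩⟩
      · exact ball_subset_ball (min_le_left _ _) hw.1
      · exact ball_subset_ball (min_le_right _ _) hw.1
    · have hzK : z ∉ K := fun h => hzO (hKO h)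
      refine ⟨0, Kᶜ, mem_nhdsWithin_of_mem_nhds (hK.isClosed.isOpen_compl.mem_nhds hzK), ?_⟩
      intro x hx y hy
      rw [hu0 x hx, hu0 y hy]
      simp
  obtain ⟨CU, hCU⟩ := lip_half hK hu0 huH
  have hU : LipschitzWith (CU * 1) (u ∘ fold) := by
    rw [← lipschitzOnWith_univ]
    exact hCU.comp (fold_lip.lipschitzOnWith (s := univ)) fun z _ => fold_mem z
  have hUs : HasCompactSupport (u ∘ fold) := by
    obtain ⟨R, hR⟩ := hK.isBounded.subset_closedBall (0 : E2)
    refine HasCompactSupport.intro (isCompact_closedBall (0 : E2) R) fun z hz => ?_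
    apply hu0
    intro hh
    apply hz
    have := hR hh
    rwa [mem_closedBall, dist_zero_right, fold_norm, ← dist_zero_right, ← mem_closedBall] at this
  have hcore := coreE hU hUs hV
  have hUu : ∀ z : E2, 0 < z 0 → fderiv ℝ (u ∘ fold) z = fderiv ℝ u z := by
    intro z hz
    apply Filter.EventuallyEq.fderiv_eq
    filter_upwards [open_half.mem_nhds hz] with w hw
    rw [Function.comp_apply, fold_eq (le_of_lt hw)]
  have hout : ∀ z : E2, 0 < z 0 → z ∉ interior T → fderiv ℝ u z = 0 := by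
    intro z hz hzT
    have hzK : z ∉ K := fun h => hzT (hKT ⟨h, le_of_lt hz⟩)
    have : u =ᶠ[𝓝 z] fun _ => (0 : ℝ) := by
      filter_upwards [hK.isClosed.isOpen_compl.mem_nhds hzK] with w hw
      exact hu0 w hw
    rw [this.fderiv_eq, fderiv_const_apply]
  have hcr0 : ∀ Q : E2 →L[ℝ] ℝ, cr 0 Q = 0 := by
    intro Q
    simp [cr]
  have hin : ∀ z : E2, 0 < z 0 → cr (fderiv ℝ u z) (fderiv ℝ v z) =
      cr (fderiv ℝ (u ∘ fold) z) (fderiv ℝ V z) := by
    intro z hz
    rw [hUu z hz]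
    by_cases hzT : z ∈ interior T
    · have : V =ᶠ[𝓝 z] v := by
        filter_upwards [open_half.mem_nhds hz, isOpen_interior.mem_nhds hzT] with w hw1 hw2
        exact (hVv ⟨interior_subset hw2, le_of_lt hw1⟩).symm
      rw [this.fderiv_eq]
    · rw [hout z hz hzT, hcr0, hcr0]
  have hset : (O ∩ {z : E2 | 0 ≤ z 0} : Set E2) =ᵐ[volume] (O ∩ {z : E2 | 0 < z 0} : Set E2) := by
    have hn : ∀ᵐ z : E2, ¬ z 0 = 0 := by
      rw [ae_iff]
      simpa using null_line
    filter_upwards [hn] with z hz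
    apply propext
    constructor
    · rintro ⟨h1, h2⟩
      exact ⟨h1, lt_of_le_of_ne h2 (Ne.symm hz)⟩
    · rintro ⟨h1, h2⟩
      exact ⟨h1, LT.lt.le (α := ℝ) h2⟩
  rw [setIntegral_congr_set hset, setIntegral_congr_fun (hO.inter open_half).measurableSet
    (fun z hz => hin z hz.2)]
  have hext : ∫ z in {z : E2 | 0 < z 0}, cr (fderiv ℝ (u ∘ fold) z) (fderiv ℝ V z) =
      ∫ z in O ∩ {z : E2 | 0 < z 0}, cr (fderiv ℝ (u ∘ fold) z) (fderiv ℝ V z) := by
    apply setIntegral_eq_of_subset_of_forall_sdiff_eq_zero open_half.measurableSet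
      inter_subset_right
    rintro z ⟨hz1, hz2⟩
    have hzO : z ∉ O := fun h => hz2 ⟨h, hz1⟩
    have hzT : z ∉ interior T := fun h => hzO (hTO (interior_subset h))
    rw [hUu z hz1, hout z hz1 hzT, hcr0]
  rw [← hext, hcore]
  congr 1
  apply integral_congr_ae
  refine Eventually.of_forall fun t => ?_
  have hbp : Continuous bp := by
    have : (bp : ℝ → E2) = fun t => t • bv 1 := rfl
    rw [this]
    fun_prop
  have hbpf : (u ∘ fold) (bp t) = u (bp t) := by
    rw [Function.comp_apply, fold_eq (bp_zero t).ge]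
  change (u ∘ fold) (bp t) * deriv (fun t => V (bp t)) t = u (bp t) * deriv (fun t => v (bp t)) t
  rw [hbpf]
  by_cases htT : bp t ∈ interior T
  · congr 1
    apply Filter.EventuallyEq.deriv_eq
    filter_upwards [hbp.continuousAt.preimage_mem_nhds (isOpen_interior.mem_nhds htT)] with s hs
    exact (hVv ⟨interior_subset hs, (bp_zero s).ge⟩).symm
  · have : bp t ∉ K := fun h => htT (hKT ⟨h, (bp_zero t).ge⟩)
    rw [hu0 _ this, zero_mul, zero_mul]

end Pool.Agent.Y79.FA
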